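import Pool.Agent.R98.EQ.Fin2
import Pool.Agent.R98.EQ.Main0
import Pool.Agent.R98.EQ.Seg
import Pool.Agent.R98.EQ.Strict
import Pool.Agent.R98.EQ.Gen
import Pool.Agent.R98.EQ.CellS
import Pool.Agent.R98.EQ.Close
import Pool.Agent.R98.EQ.Path1
import Pool.Agent.R98.EQ.Path2
import Pool.Agent.R98.EQ.Prod
import Pool.Agent.R98.EQ.Comp
import Pool.Agent.R98.EQ.Crit
import Pool.Agent.R98.EQ.Crit0
import Pool.Agent.R98.EQ.Cross
import Pool.Agent.R98.EQ.Rel
import Pool.Agent.R98.EQ.Sol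
import Pool.Agent.R98.EQ.Ham
import Pool.Agent.R98.EQ.Part
import Pool.Agent.R98.EQ.Welzl
import Pool.Agent.R98.EQ.VC
import Pool.Agent.R98.EQ.Count

/-!
# MP_f3d7df_co: equitable oblivious regularity partitions for semialgebraic hypergraphs

Full (positive) answer to Q1.
-/

namespace Pool.Agent.Results.MP_f3d7df_co.EquitablePartitions

open MvPolynomial Finset

/-- `E` (a set of `k`-tuples of points of `ℝ^d`) is given on `P_1 × ⋯ × P_k` by the signs of finitely
many polynomials of total degree (sum of the degrees) at most `D`. -/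
def SemiAlg {k d : ℕ} (D : ℕ) (P : Fin k → Finset (Fin d → ℝ)) (E : Set (Fin k → Fin d → ℝ)) :
    Prop :=
  ∃ (t : ℕ) (g : Fin t → MvPolynomial (Fin k × Fin d) ℝ) (Φ : (Fin t → SignType) → Prop),
    ∑ r, (g r).totalDegree ≤ D ∧ ∀ x : Fin k → Fin d → ℝ, (∀ i, x i ∈ P i) →
      (x ∈ E ↔ Φ (fun r => SignType.sign (eval (fun v => x v.1 v.2) (g r))))

/-- The product `π_1 × ⋯ × π_k` is contained in `E` or disjoint from `E`. -/
def Homogeneous {k d : ℕ} (E : Set (Fin k → Fin d → ℝ)) (π : Fin k → Finset (Fin d → ℝ)) : Prop :=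
  (∀ x : Fin k → Fin d → ℝ, (∀ i, x i ∈ π i) → x ∈ E) ∨
    (∀ x : Fin k → Fin d → ℝ, (∀ i, x i ∈ π i) → x ∉ E)

open scoped Classical in
/-- The error of a family of partitions: the sum of `|π_1|⋯|π_k| / (|P_1|⋯|P_k|)` over all
non-homogeneous tuples of parts. -/
noncomputable def err {k d : ℕ} (P : Fin k → Finset (Fin d → ℝ))
    (Q : ∀ i, Finpartition (P i)) (E : Set (Fin k → Fin d → ℝ)) : ℝ :=
  ∑ π ∈ (Fintype.piFinset fun i => (Q i).parts).filter (fun π => ¬ Homogeneous E π),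
    ∏ i, ((π i).card : ℝ) / (P i).card

theorem result : ∀ d k : ℕ, 1 ≤ d → 1 ≤ k → ∃ C : ℝ, 0 < C ∧
    ∀ (D : ℕ) (ε : ℝ), 1 ≤ D → 0 < ε → ∀ P : Fin k → Finset (Fin d → ℝ),
      ∃ Q : ∀ i, Finpartition (P i),
        (∀ i, (Q i).IsEquipartition) ∧
        (∀ i, ((Q i).parts.card : ℝ) ≤ max 1 (C * (D / ε) ^ d)) ∧
        (ε ≤ 1 → ∀ i, ((Q i).parts.card : ℝ) ≤ C * (D / ε) ^ d) ∧
        ∀ E : Set (Fin k → Fin d → ℝ), SemiAlg D P E → err P Q E ≤ ε := by
  open Pool.Agent.R98.EQ in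
  have hX : CrossStmt := cross rel sol crit
  have hC : CompStmt := comp rel sol crit0
  have hP : PartStmt := part ham
  have hPath2 : ∀ d, 2 ≤ d → PathIn d := path2 (close hP hX hC) welzl (count vc)
  have hPath : ∀ d, 1 ≤ d → PathIn d := by
    intro d hd
    rcases Nat.lt_or_ge 1 d with h | h
    · exact hPath2 d h
    · obtain rfl : d = 1 := le_antisymm h hd
      exact path1
  have hMain : Main0Stmt := main0 (cellStmt hP hC hPath) (prod hX) seg
  intro d k hd hk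
  obtain ⟨C, hC0, h⟩ := Pool.Agent.R98.EQ.Fn.final (strict gen) hMain d k hd hk
  refine ⟨max C 1, lt_max_of_lt_left hC0, ?_⟩
  intro D ε hD hε P
  obtain ⟨Q, h1, h2, h3⟩ := h D ε hD hε P
  have hpos : (0 : ℝ) ≤ (D / ε) ^ d := by positivity
  have h4 : C * (D / ε) ^ d ≤ max C 1 * (D / ε) ^ d :=
    mul_le_mul_of_nonneg_right (le_max_left _ _) hpos
  refine ⟨Q, h1, fun i => (h2 i).trans (max_le_max le_rfl h4), ?_, ?_⟩
  · intro hε1 i
    refine (h2 i).trans (max_le ?_ h4)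
    have h5 : (1 : ℝ) ≤ D / ε := by
      rw [le_div_iff₀ hε]
      have : (1 : ℝ) ≤ D := by exact_mod_cast hD
      linarith
    have h6 : (1 : ℝ) ≤ (D / ε) ^ d := one_le_pow₀ h5
    nlinarith [le_max_right C 1]
  · intro E hE
    have h7 := h3 E hE
    have h8 : err P Q E = Pool.Agent.R98.EQ.Fn.err P Q E := by
      unfold err Pool.Agent.R98.EQ.Fn.err
      refine Finset.sum_congr ?_ (fun _ _ => rfl)
      ext π
      simp only [Finset.mem_filter]
      exact Iff.rfl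
    rw [h8]
    exact h7

end Pool.Agent.Results.MP_f3d7df_co.EquitablePartitions
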